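import Pool.Agent.H735.PU.Reals
import Pool.Graph.R_seed8.Helper292.ForceCH

/-!
# MP_d1514d_gt: productive U-Menger for all ultrafilters versus productive Scheepers

It is consistent that some set of reals is productively U-Menger for every free ultrafilter U but
not productively Scheepers: this is proved from the continuum hypothesis, and the continuum
hypothesis can be forced.
-/

namespace Pool.Agent.Results.MP_d1514d_gt.ConsistentlyYes

open Set Cardinal

universe u v

/-- The Menger property: for every sequence of open covers `C n` there are finite `F n ⊆ C n` such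
that all the members of all the `F n` cover the space. -/
def Menger (Z : Type u) [TopologicalSpace Z] : Prop :=
  ∀ C : ℕ → Set (Set Z), (∀ n, (∀ u ∈ C n, IsOpen u) ∧ ⋃₀ C n = Set.univ) →
    ∃ F : ℕ → Set (Set Z), (∀ n, F n ⊆ C n ∧ (F n).Finite) ∧ (⋃ n, ⋃₀ F n) = Set.univ

/-- The Scheepers property: for every sequence of open covers `C n` there are finite `F n ⊆ C n`
such that every finite subset of the space is contained in the union of `F n` for some `n`. -/
def Scheepers (Z : Type u) [TopologicalSpace Z] : Prop :=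
  ∀ C : ℕ → Set (Set Z), (∀ n, (∀ u ∈ C n, IsOpen u) ∧ ⋃₀ C n = Set.univ) →
    ∃ F : ℕ → Set (Set Z), (∀ n, F n ⊆ C n ∧ (F n).Finite) ∧
      ∀ E : Set Z, E.Finite → ∃ n, E ⊆ ⋃₀ F n

/-- The property `U`-Menger: for every sequence of open covers `C n` there are finite `F n ⊆ C n`
such that for each point `z` the set of `n` for which `z` is in the union of `F n` belongs to
the ultrafilter `U`. -/
def UMenger (U : Ultrafilter ℕ) (Z : Type u) [TopologicalSpace Z] : Prop :=
  ∀ C : ℕ → Set (Set Z), (∀ n, (∀ u ∈ C n, IsOpen u) ∧ ⋃₀ C n = Set.univ) →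
    ∃ F : ℕ → Set (Set Z), (∀ n, F n ⊆ C n ∧ (F n).Finite) ∧ ∀ z, {n | z ∈ ⋃₀ F n} ∈ U

/-- The ultrafilter `U` is free: it contains the complements of all finite sets. -/
def Free (U : Ultrafilter ℕ) : Prop := ∀ A : Set ℕ, A.Finite → Aᶜ ∈ U

/-- The set of reals `X` is productively Scheepers in the class of sets of reals. -/
def ProductivelyScheepers (X : Set ℝ) : Prop := ∀ Y : Set ℝ, Scheepers Y → Scheepers (X × Y)

/-- The set of reals `X` is productively `U`-Menger in the class of sets of reals. -/
def ProductivelyUMenger (U : Ultrafilter ℕ) (X : Set ℝ) : Prop :=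
  ∀ Y : Set ℝ, UMenger U Y → UMenger U (X × Y)

/-- (A) Some notion of forcing `P` forces, below every condition, that `ω₁` is preserved and that
the continuum hypothesis holds.  (B) Under the continuum hypothesis there is an infinite set of
reals `X` which is productively `U`-Menger for every free ultrafilter `U` but not productively
Scheepers.  Moreover, for every free ultrafilter `U` the product of `X` with every `U`-Menger
topological space is `U`-Menger, and the product of `X` with some infinite Scheepers set of reals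
`Y` is not even Menger. -/
theorem result :
    (∃ (P : Type) (_ : Preorder P), Nonempty P ∧ ∀ p : P,
      p ∈ Pool.Agent.Helper292.ForceCH.OmegaOnePreserved P ∧
      p ∈ Pool.Agent.Helper292.ForceCH.CHHolds P) ∧
    ((ℵ₁ : Cardinal.{0}) = 𝔠 →
      ∃ X : Set ℝ, X.Infinite ∧ (∀ U : Ultrafilter ℕ, Free U → ProductivelyUMenger U X) ∧
        ¬ ProductivelyScheepers X ∧
        (∀ U : Ultrafilter ℕ, Free U → ∀ (Z : Type v) [TopologicalSpace Z],
          UMenger U Z → UMenger U (X × Z)) ∧
        ∃ Y : Set ℝ, Y.Infinite ∧ Scheepers Y ∧ ¬ Menger (X × Y)) := by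
  constructor
  · obtain ⟨P, i, h1, h2⟩ := Pool.Agent.Helper292.ForceCH.exists_forcing
    exact ⟨P, i, h1, fun p => ⟨(h2 p).1, (h2 p).2.2⟩⟩
  · intro CH
    obtain ⟨X, Y, h0, h1, h2, h3, h4⟩ := Pool.Agent.H735.PU.exists_reals.{v} CH
    have hfree : ∀ U : Ultrafilter ℕ, Free U → (U : Filter ℕ) ≤ Filter.atTop := by
      intro U hU
      rw [← Nat.cofinite_eq_atTop]
      intro A hA
      have := hU Aᶜ (Filter.mem_cofinite.1 hA)
      rwa [compl_compl] at this
    have h5 : ∀ U : Ultrafilter ℕ, Free U → ∀ (Z : Type v) [TopologicalSpace Z],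
        UMenger U Z → UMenger U (X × Z) := fun U hU Z _ hZ => h2 U (hfree U hU) Z hZ
    refine ⟨X, h0, ?_, ?_, h5, Y, h1, h3, h4⟩
    · intro U hU Z hZ
      have h6 : Pool.Agent.H735.PU.UMengerSp U (ULift.{v} Z) :=
        Pool.Agent.H735.PU.UMengerSp.of_surjective hZ Homeomorph.ulift.symm
          Homeomorph.ulift.symm.continuous Homeomorph.ulift.symm.surjective
      exact Pool.Agent.H735.PU.UMengerSp.of_surjective (h2 U (hfree U hU) (ULift.{v} Z) h6)
        ((Homeomorph.refl X).prodCongr Homeomorph.ulift)
        ((Homeomorph.refl X).prodCongr Homeomorph.ulift).continuous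
        ((Homeomorph.refl X).prodCongr Homeomorph.ulift).surjective
    · intro h6
      apply h4
      intro C hC
      obtain ⟨F, hF1, hF2⟩ := h6 Y h3 C hC
      refine ⟨F, hF1, ?_⟩
      rw [eq_univ_iff_forall]
      intro z
      obtain ⟨n, hn⟩ := hF2 {z} (Set.finite_singleton z)
      exact mem_iUnion.2 ⟨n, hn rfl⟩

end Pool.Agent.Results.MP_d1514d_gt.ConsistentlyYes
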